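import Mathlib

/-!
# Two-colourings of the plane: balanced finite configurations

`Good P` says that the property `P` of subsets of the plane (think: a given triangle does not
occur in the set) has a finite configuration `X` with `2n` points such that every set with
property `P` contains at most half of the points of every rotated translate of `X`, and such that
exactly half for all rotated translates is impossible.
-/

set_option autoImplicit false

namespace Pool.Agent.H50.Tri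

open Finset ComplexConjugate

/-- The indicator function of a set of complex numbers. -/
noncomputable def ind (A : Set ℂ) (z : ℂ) : ℤ := by
  classical exact if z ∈ A then 1 else 0

theorem ind_of_mem {A : Set ℂ} {z : ℂ} (h : z ∈ A) : ind A z = 1 := by
  classical
  unfold ind
  exact if_pos h

theorem ind_of_not_mem {A : Set ℂ} {z : ℂ} (h : z ∉ A) : ind A z = 0 := by
  classical
  unfold ind
  exact if_neg h

theorem ind_cases (A : Set ℂ) (z : ℂ) : ind A z = 0 ∨ ind A z = 1 := by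
  by_cases h : z ∈ A
  · exact Or.inr (ind_of_mem h)
  · exact Or.inl (ind_of_not_mem h)

theorem ind_eq_one {A : Set ℂ} {z : ℂ} : ind A z = 1 ↔ z ∈ A := by
  constructor
  · intro h
    by_contra h'
    rw [ind_of_not_mem h'] at h
    exact absurd h (by norm_num)
  · exact ind_of_mem

theorem ind_eq_zero {A : Set ℂ} {z : ℂ} : ind A z = 0 ↔ z ∉ A := by
  constructor
  · intro h h'
    rw [ind_of_mem h'] at h
    exact absurd h (by norm_num)
  · exact ind_of_not_mem

theorem ind_compl (A : Set ℂ) (z : ℂ) : ind Aᶜ z = 1 - ind A z := by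
  by_cases h : z ∈ A
  · rw [ind_of_mem h, ind_of_not_mem (show z ∉ Aᶜ from fun h' => h' h)]
    norm_num
  · rw [ind_of_not_mem h, ind_of_mem (show z ∈ Aᶜ from h)]
    norm_num

/-- The set `A` contains no congruent copy of the triangle with an apex from which legs of
(signed) lengths `a` and `b` start in the directions `1` and `s`. -/
def Free (a b : ℝ) (s : ℂ) (A : Set ℂ) : Prop :=
  ∀ x ρ : ℂ, ‖ρ‖ = 1 →
    (x ∈ A → x + a * ρ ∈ A → x + b * (s * ρ) ∈ A → False) ∧
    (x ∈ A → x + a * ρ ∈ A → x + b * (conj s * ρ) ∈ A → False)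

/-- Balanced finite configurations. -/
def Good (P : Set ℂ → Prop) : Prop :=
  ∃ n : ℕ, 0 < n ∧ ∃ X : Fin (2 * n) → ℂ,
    (∀ A, P A → ∀ x ρ : ℂ, ‖ρ‖ = 1 → ∑ i, ind A (x + ρ * X i) ≤ n) ∧
    ∀ A, P A → ¬ ∀ x ρ : ℂ, ‖ρ‖ = 1 → ∑ i, ind A (x + ρ * X i) = n

/-- Product of two balanced configurations. -/
theorem Good.not_both {P Q : Set ℂ → Prop} (hP : Good P) (hQ : Good Q) (A : Set ℂ)
    (hA : P A) (hA' : Q Aᶜ) : False := by
  obtain ⟨n, hn, X, h1, h2⟩ := hP
  obtain ⟨m, hm, Y, h3, -⟩ := hQ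
  refine h2 A hA (fun x ρ hρ => le_antisymm (h1 A hA x ρ hρ) ?_)
  -- lower bound by the second configuration
  have k3 : ∀ y, (m : ℤ) ≤ ∑ j, ind A (y + Y j) := by
    intro y
    have := h3 Aᶜ hA' y 1 norm_one
    simp only [one_mul, ind_compl, Finset.sum_sub_distrib, Finset.sum_const, Finset.card_univ,
      Fintype.card_fin] at this
    simp only [nsmul_eq_mul] at this
    push_cast at this
    linarith
  let j0 : Fin (2 * m) := ⟨0, by omega⟩
  have e1 : (2 * n * m : ℤ) ≤ ∑ i, ∑ j, ind A ((x + ρ * X i - Y j0) + Y j) := by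
    calc (2 * n * m : ℤ) = ∑ _i : Fin (2 * n), (m : ℤ) := by
          simp
      _ ≤ _ := Finset.sum_le_sum (fun i _ => k3 _)
  rw [Finset.sum_comm] at e1
  have e2 : ∀ j, ∑ i, ind A ((x + ρ * X i - Y j0) + Y j) ≤ n := by
    intro j
    have := h1 A hA (x - Y j0 + Y j) ρ hρ
    calc ∑ i, ind A ((x + ρ * X i - Y j0) + Y j) =
        ∑ i, ind A ((x - Y j0 + Y j) + ρ * X i) :=
          Finset.sum_congr rfl (fun i _ => by congr 1; ring)
      _ ≤ n := this
  have e3 : ∑ j, ∑ i, ind A ((x + ρ * X i - Y j0) + Y j) ≤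
      ∑ i, ind A (x + ρ * X i) + (2 * m - 1) * n := by
    rw [← Finset.add_sum_erase univ _ (Finset.mem_univ j0)]
    refine add_le_add (le_of_eq ?_) ?_
    · refine Finset.sum_congr rfl (fun i _ => ?_)
      congr 1
      ring
    · calc ∑ j ∈ univ.erase j0, ∑ i, ind A ((x + ρ * X i - Y j0) + Y j)
          ≤ ∑ _j ∈ univ.erase j0, (n : ℤ) := Finset.sum_le_sum (fun j _ => e2 j)
        _ = (2 * m - 1) * n := by
          rw [Finset.sum_const, Finset.card_erase_of_mem (Finset.mem_univ _), Finset.card_univ,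
            Fintype.card_fin, nsmul_eq_mul]
          push_cast [Nat.cast_sub (show 1 ≤ 2 * m by omega)]
          ring
  have := e1.trans e3
  nlinarith [this]

/-- Every complex number of absolute value at most `2` is a sum of two numbers of absolute
value one. -/
theorem sum_two_units (z : ℂ) (hz : ‖z‖ ≤ 2) : ∃ u v : ℂ, ‖u‖ = 1 ∧ ‖v‖ = 1 ∧ z = u + v := by
  -- `z = r e`, `‖e‖ = 1`, `u, v = e (r/2 ± i sqrt (1 - r²/4))`
  obtain ⟨e, he, r, hr0, hr2, hze⟩ : ∃ e : ℂ, ‖e‖ = 1 ∧ ∃ r : ℝ, 0 ≤ r ∧ r ≤ 2 ∧ z = r * e := by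
    by_cases h : z = 0
    · exact ⟨1, norm_one, 0, le_refl _, by norm_num, by simp [h]⟩
    · have h' : ‖z‖ ≠ 0 := norm_ne_zero_iff.2 h
      refine ⟨z / ‖z‖, ?_, ‖z‖, norm_nonneg _, hz, ?_⟩
      · rw [norm_div, Complex.norm_real, norm_norm, div_self h']
      · rw [mul_div_cancel₀]
        exact_mod_cast h'
  have hw : ∀ s : ℝ, s = 1 ∨ s = -1 → ‖e * ⟨r / 2, s * Real.sqrt (1 - r ^ 2 / 4)⟩‖ = 1 := by
    intro s hs
    have hs2 : s * s = 1 := by rcases hs with rfl | rfl <;> norm_num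
    rw [norm_mul, he, one_mul, Complex.norm_def, Complex.normSq_mk]
    have h1 : Real.sqrt (1 - r ^ 2 / 4) * Real.sqrt (1 - r ^ 2 / 4) = 1 - r ^ 2 / 4 :=
      Real.mul_self_sqrt (by nlinarith)
    have h2 : r / 2 * (r / 2) + s * Real.sqrt (1 - r ^ 2 / 4) * (s * Real.sqrt (1 - r ^ 2 / 4)) =
        1 := by
      have : s * Real.sqrt (1 - r ^ 2 / 4) * (s * Real.sqrt (1 - r ^ 2 / 4)) =
          (s * s) * (Real.sqrt (1 - r ^ 2 / 4) * Real.sqrt (1 - r ^ 2 / 4)) := by ring
      rw [this, h1, hs2]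
      ring
    rw [h2, Real.sqrt_one]
  refine ⟨_, _, hw 1 (Or.inl rfl), hw (-1) (Or.inr rfl), ?_⟩
  rw [hze, ← mul_add]
  have : (⟨r / 2, 1 * Real.sqrt (1 - r ^ 2 / 4)⟩ + ⟨r / 2, -1 * Real.sqrt (1 - r ^ 2 / 4)⟩ : ℂ) =
      r := by
    apply Complex.ext <;> simp
  rw [this, mul_comm]

/-- A function which is invariant under all translations of a given nonzero length is constant. -/
theorem const_of_inv {α : Type*} (f : ℂ → α) (w : ℂ) (hw : w ≠ 0)
    (h : ∀ x ρ : ℂ, ‖ρ‖ = 1 → f (x + w * ρ) = f x) (x y : ℂ) : f x = f y := by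
  have h1 : ∀ z : ℂ, ‖z‖ ≤ 2 → ∀ x, f (x + w * z) = f x := by
    intro z hz x
    obtain ⟨u, v, hu, hv, rfl⟩ := sum_two_units z hz
    rw [mul_add, ← add_assoc, h _ v hv, h _ u hu]
  have h2 : ∀ (n : ℕ) (z : ℂ), ‖z‖ ≤ 2 → ∀ x, f (x + n * (w * z)) = f x := by
    intro n z hz
    induction n with
    | zero => intro x; simp
    | succ n ih =>
      intro x
      have : x + (n + 1 : ℕ) * (w * z) = (x + n * (w * z)) + w * z := by push_cast; ring
      rw [this, h1 z hz, ih]
  obtain ⟨n, hn⟩ := exists_nat_gt (‖(y - x) / w‖)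
  have hn0 : (0 : ℝ) < n := (norm_nonneg _).trans_lt hn
  have hn0' : (n : ℂ) ≠ 0 := by
    have : n ≠ 0 := by
      intro h'
      rw [h'] at hn0
      simp at hn0
    exact_mod_cast this
  have h3 := h2 n ((y - x) / w / n) (by
    rw [norm_div, Complex.norm_natCast]
    have : ‖(y - x) / w‖ / n ≤ 1 := (div_le_one hn0).2 hn.le
    linarith) x
  rw [← h3]
  congr 1
  field_simp
  ring

end Pool.Agent.H50.Tri
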