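import Pool.Agent.H50.Tri.Base

/-!
# Right triangles

The vertices of a rectangle form a balanced configuration for right triangles.
-/

set_option autoImplicit false

namespace Pool.Agent.H50.Tri

open Finset ComplexConjugate

/-- The operator `1 + T_w`. -/
def D (w : ℂ) (h : ℂ → ℤ) : ℂ → ℤ := fun x => h x + h (x + w)

theorem D_comm (w w' : ℂ) (h : ℂ → ℤ) : D w (D w' h) = D w' (D w h) := by
  funext x
  simp only [D]
  rw [add_right_comm x w w']
  ring

theorem D_zero (w : ℂ) : D w 0 = 0 := by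
  funext x
  simp [D]

/-- If every choice of factors forces `h = 0`, then so do the products of the two factors. -/
theorem choices {ι : Type*} [DecidableEq ι] (u v : ι → ℂ) (s : Finset ι)
    (hb : ∀ (c : ι → Bool) (h : ℂ → ℤ), (∀ j, D (if c j then u j else v j) h = 0) → h = 0)
    (c : ι → Bool) (h : ℂ → ℤ) (h1 : ∀ j, D (u j) (D (v j) h) = 0)
    (h2 : ∀ j, j ∉ s → D (if c j then u j else v j) h = 0) : h = 0 := by
  induction s using Finset.induction_on generalizing c h with
  | empty => exact hb c h (fun j => h2 j (by simp))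
  | insert k s hk ih =>
    have e1 : D (v k) h = 0 := by
      refine ih (Function.update c k true) _ ?_ ?_
      · intro j
        rw [D_comm (v j) (v k), D_comm (u j) (v k), h1 j, D_zero]
      · intro j hj
        by_cases hjk : j = k
        · subst hjk
          rw [Function.update_self]
          simpa using h1 j
        · rw [Function.update_of_ne hjk, D_comm, h2 j (by simp [hjk, hj]), D_zero]
    refine ih (Function.update c k false) _ h1 ?_
    intro j hj
    by_cases hjk : j = k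
    · subst hjk
      rw [Function.update_self]
      simpa using e1
    · rw [Function.update_of_ne hjk, h2 j (by simp [hjk, hj])]

theorem anti_mul {h : ℂ → ℤ} {w : ℂ} (hw : D w h = 0) (n : ℕ) (x : ℂ) :
    h (x + n * w) = (-1) ^ n * h x := by
  have h0 : ∀ x, h (x + w) = - h x := by
    intro x
    have := congrFun hw x
    simp only [D, Pi.zero_apply] at this
    linarith
  induction n with
  | zero => simp
  | succ n ih =>
    have : x + ((n + 1 : ℕ) : ℂ) * w = (x + n * w) + w := by push_cast; ring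
    rw [this, h0, ih, pow_succ]
    ring

theorem kill1 {h : ℂ → ℤ} {w0 w1 w2 : ℂ} (h0 : D w0 h = 0) (h1 : D w1 h = 0) (h2 : D w2 h = 0)
    (m t : ℕ) (hm : Even m) (ht : Odd t) (e : (m : ℂ) * w0 + m * w2 = t * w1) : h = 0 := by
  funext x
  have k1 := anti_mul h1 t x
  have k2 := anti_mul h0 m x
  have k3 := anti_mul h2 m (x + m * w0)
  rw [add_assoc, e, k2, hm.neg_one_pow, k1, ht.neg_one_pow] at k3
  simp only [Pi.zero_apply]
  linarith

theorem kill2 {h : ℂ → ℤ} {w0 w1 w2 : ℂ} (h0 : D w0 h = 0) (h1 : D w1 h = 0) (h2 : D w2 h = 0)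
    (m t : ℕ) (hm : Even m) (ht : Odd t) (e : (m : ℂ) * w0 + m * w2 + t * w1 = 0) : h = 0 := by
  funext x
  have k1 := anti_mul h1 t (x + m * w0 + m * w2)
  have k2 := anti_mul h0 m x
  have k3 := anti_mul h2 m (x + m * w0)
  have : x + m * w0 + m * w2 + t * w1 = x := by linear_combination e
  rw [this, k3, k2, hm.neg_one_pow, ht.neg_one_pow] at k1
  simp only [Pi.zero_apply]
  linarith

/-- A complex number of absolute value one with rational real part and suitable parity. -/
noncomputable def ze : ℂ := ⟨1 / 4, Real.sqrt 15 / 4⟩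

theorem ze_sq : 2 * ze ^ 2 - ze + 2 = 0 := by
  have h : Real.sqrt 15 * Real.sqrt 15 = 15 := Real.mul_self_sqrt (by norm_num)
  rw [pow_two, ze]
  apply Complex.ext
  · simp only [Complex.add_re, Complex.sub_re, Complex.mul_re, Complex.re_ofNat, Complex.im_ofNat,
      Complex.zero_re]
    linarith
  · simp only [Complex.add_im, Complex.sub_im, Complex.mul_im, Complex.re_ofNat, Complex.im_ofNat,
      Complex.zero_im, Complex.mul_re]
    ring

theorem ze_norm : ‖ze‖ = 1 := by
  have h : Real.sqrt 15 * Real.sqrt 15 = 15 := Real.mul_self_sqrt (by norm_num)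
  rw [ze, Complex.norm_def, Complex.normSq_mk]
  have : (1 : ℝ) / 4 * (1 / 4) + Real.sqrt 15 / 4 * (Real.sqrt 15 / 4) = 1 := by linarith
  rw [this, Real.sqrt_one]

/-- van der Waerden's number `W(3,2) = 9`. -/
theorem vdw : ∀ b0 b1 b2 b3 b4 b5 b6 b7 b8 : Bool,
    (b0 = b1 ∧ b1 = b2) ∨ (b1 = b2 ∧ b2 = b3) ∨ (b2 = b3 ∧ b3 = b4) ∨ (b3 = b4 ∧ b4 = b5) ∨
    (b4 = b5 ∧ b5 = b6) ∨ (b5 = b6 ∧ b6 = b7) ∨ (b6 = b7 ∧ b7 = b8) ∨
    (b0 = b2 ∧ b2 = b4) ∨ (b1 = b3 ∧ b3 = b5) ∨ (b2 = b4 ∧ b4 = b6) ∨ (b3 = b5 ∧ b5 = b7) ∨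
    (b4 = b6 ∧ b6 = b8) ∨
    (b0 = b3 ∧ b3 = b6) ∨ (b1 = b4 ∧ b4 = b7) ∨ (b2 = b5 ∧ b5 = b8) ∨
    (b0 = b4 ∧ b4 = b8) := by
  decide

theorem vdw' (c : Fin 9 → Bool) : ∃ (i j k : Fin 9) (d : ℕ), 1 ≤ d ∧ d ≤ 4 ∧ (j : ℕ) = i + d ∧
    (k : ℕ) = i + 2 * d ∧ c i = c j ∧ c j = c k := by
  rcases vdw (c 0) (c 1) (c 2) (c 3) (c 4) (c 5) (c 6) (c 7) (c 8) with
    h | h | h | h | h | h | h | h | h | h | h | h | h | h | h | h
  · exact ⟨0, 1, 2, 1, by norm_num, by norm_num, rfl, rfl, h.1, h.2⟩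
  · exact ⟨1, 2, 3, 1, by norm_num, by norm_num, rfl, rfl, h.1, h.2⟩
  · exact ⟨2, 3, 4, 1, by norm_num, by norm_num, rfl, rfl, h.1, h.2⟩
  · exact ⟨3, 4, 5, 1, by norm_num, by norm_num, rfl, rfl, h.1, h.2⟩
  · exact ⟨4, 5, 6, 1, by norm_num, by norm_num, rfl, rfl, h.1, h.2⟩
  · exact ⟨5, 6, 7, 1, by norm_num, by norm_num, rfl, rfl, h.1, h.2⟩
  · exact ⟨6, 7, 8, 1, by norm_num, by norm_num, rfl, rfl, h.1, h.2⟩
  · exact ⟨0, 2, 4, 2, by norm_num, by norm_num, rfl, rfl, h.1, h.2⟩
  · exact ⟨1, 3, 5, 2, by norm_num, by norm_num, rfl, rfl, h.1, h.2⟩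
  · exact ⟨2, 4, 6, 2, by norm_num, by norm_num, rfl, rfl, h.1, h.2⟩
  · exact ⟨3, 5, 7, 2, by norm_num, by norm_num, rfl, rfl, h.1, h.2⟩
  · exact ⟨4, 6, 8, 2, by norm_num, by norm_num, rfl, rfl, h.1, h.2⟩
  · exact ⟨0, 3, 6, 3, by norm_num, by norm_num, rfl, rfl, h.1, h.2⟩
  · exact ⟨1, 4, 7, 3, by norm_num, by norm_num, rfl, rfl, h.1, h.2⟩
  · exact ⟨2, 5, 8, 3, by norm_num, by norm_num, rfl, rfl, h.1, h.2⟩
  · exact ⟨0, 4, 8, 4, by norm_num, by norm_num, rfl, rfl, h.1, h.2⟩

/-- Three directions in progression kill everything. -/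
theorem kill_prog {h : ℂ → ℤ} (α : ℂ) (i j k d : ℕ) (hd1 : 1 ≤ d) (hd4 : d ≤ 4) (hj : j = i + d)
    (hk : k = i + 2 * d) (h0 : D (α * ze ^ i) h = 0) (h1 : D (α * ze ^ j) h = 0)
    (h2 : D (α * ze ^ k) h = 0) : h = 0 := by
  subst hj hk
  have hq := ze_sq
  interval_cases d
  · refine kill1 h0 h1 h2 2 1 (by decide) (by decide) ?_
    rw [pow_add, pow_add]
    push_cast
    linear_combination (α * ze ^ i) * hq
  · refine kill2 h0 h1 h2 4 7 (by decide) (by decide) ?_
    rw [pow_add, pow_add]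
    push_cast
    linear_combination (α * ze ^ i * (2 * ze ^ 2 + ze + 2)) * hq
  · refine kill2 h0 h1 h2 8 11 (by decide) (by decide) ?_
    rw [pow_add, pow_add]
    push_cast
    linear_combination (α * ze ^ i * (4 * ze ^ 4 + 2 * ze ^ 3 - 3 * ze ^ 2 + 2 * ze + 4)) * hq
  · refine kill1 h0 h1 h2 16 17 (by decide) (by decide) ?_
    rw [pow_add, pow_add]
    push_cast
    linear_combination (α * ze ^ i * (4 * ze ^ 4 - 7 * ze ^ 2 + 4) * (2 * ze ^ 2 + ze + 2)) * hq

theorem good_right (a b : ℝ) : Good (Free a b Complex.I) := by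
  have hE : ∀ (A : Set ℂ) (x ρ : ℂ),
      ∑ i, ind A (x + ρ * (![0, (a : ℂ), b * Complex.I, a + b * Complex.I] : Fin (2 * 2) → ℂ) i) =
      ind A x + ind A (x + a * ρ) + ind A (x + b * (Complex.I * ρ)) +
        ind A (x + a * ρ + b * (Complex.I * ρ)) := by
    intro A x ρ
    have e1 : ∑ i, ind A (x + ρ * (![0, (a : ℂ), b * Complex.I, a + b * Complex.I] :
        Fin (2 * 2) → ℂ) i) =
        ind A (x + ρ * 0) + ind A (x + ρ * a) + ind A (x + ρ * (b * Complex.I)) +
        ind A (x + ρ * (a + b * Complex.I)) := Fin.sum_univ_four _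
    rw [e1]
    have c0 : x + ρ * 0 = x := by ring
    have c1 : x + ρ * a = x + a * ρ := by ring
    have c2 : x + ρ * (b * Complex.I) = x + b * (Complex.I * ρ) := by ring
    have c3 : x + ρ * (a + b * Complex.I) = x + a * ρ + b * (Complex.I * ρ) := by ring
    rw [c0, c1, c2, c3]
  refine ⟨2, by norm_num, ![0, a, b * Complex.I, a + b * Complex.I], ?_, ?_⟩
  · intro A hA x ρ hρ
    rw [hE]
    obtain ⟨h1, -⟩ := hA x ρ hρ
    have hn : ‖-ρ‖ = 1 := by rw [norm_neg, hρ]
    have h2 := (hA (x + a * ρ) (-ρ) hn).2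
    have h3 := (hA (x + b * (Complex.I * ρ)) ρ hρ).2
    have h4 := (hA (x + a * ρ + b * (Complex.I * ρ)) (-ρ) hn).1
    rw [Complex.conj_I] at h2 h3
    have d1 : x + a * ρ + a * -ρ = x := by ring
    have d2 : x + a * ρ + b * (-Complex.I * -ρ) = x + a * ρ + b * (Complex.I * ρ) := by ring
    have d3 : x + b * (Complex.I * ρ) + a * ρ = x + a * ρ + b * (Complex.I * ρ) := by ring
    have d4 : x + b * (Complex.I * ρ) + b * (-Complex.I * ρ) = x := by ring
    have d5 : x + a * ρ + b * (Complex.I * ρ) + a * -ρ = x + b * (Complex.I * ρ) := by ring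
    have d6 : x + a * ρ + b * (Complex.I * ρ) + b * (Complex.I * -ρ) = x + a * ρ := by ring
    rw [d1, d2] at h2
    rw [d3, d4] at h3
    rw [d5, d6] at h4
    by_cases k0 : x ∈ A <;> by_cases k1 : x + a * ρ ∈ A <;>
    by_cases k2 : x + b * (Complex.I * ρ) ∈ A <;>
    by_cases k3 : x + a * ρ + b * (Complex.I * ρ) ∈ A <;>
    simp only [ind_of_mem, ind_of_not_mem, k0, k1, k2, k3, not_false_eq_true] <;>
    first
      | exact (h1 k0 k1 k2).elim
      | exact (h2 k1 k0 k3).elim
      | exact (h3 k2 k3 k0).elim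
      | exact (h4 k3 k2 k1).elim
      | norm_num
  · intro A hA hex
    have key := choices (fun j : Fin 9 => (a : ℂ) * ze ^ (j : ℕ))
      (fun j : Fin 9 => (b * Complex.I) * ze ^ (j : ℕ)) Finset.univ ?_ (fun _ => true)
      (fun x => 2 * ind A x - 1) ?_ (by simp)
    · have := congrFun key 0
      simp only [Pi.zero_apply] at this
      omega
    · intro c h hc
      obtain ⟨i, j, k, d, hd1, hd4, hj, hk, e1, e2⟩ := vdw' c
      cases hci : c i
      · have hcj : c j = false := by rw [← e1, hci]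
        have hck : c k = false := by rw [← e2, hcj]
        have k0 := hc i
        have k1 := hc j
        have k2 := hc k
        rw [hci] at k0
        rw [hcj] at k1
        rw [hck] at k2
        exact kill_prog (b * Complex.I) i j k d hd1 hd4 hj hk (by simpa using k0)
          (by simpa using k1) (by simpa using k2)
      · have hcj : c j = true := by rw [← e1, hci]
        have hck : c k = true := by rw [← e2, hcj]
        have k0 := hc i
        have k1 := hc j
        have k2 := hc k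
        rw [hci] at k0
        rw [hcj] at k1
        rw [hck] at k2
        exact kill_prog a i j k d hd1 hd4 hj hk (by simpa using k0)
          (by simpa using k1) (by simpa using k2)
    · intro j
      funext x
      have h0 := hex x (ze ^ (j : ℕ)) (by rw [norm_pow, ze_norm, one_pow])
      rw [hE] at h0
      simp only [D, Pi.zero_apply]
      have c2 : x + b * Complex.I * ze ^ (j : ℕ) = x + b * (Complex.I * ze ^ (j : ℕ)) := by ring
      have c3 : x + a * ze ^ (j : ℕ) + b * Complex.I * ze ^ (j : ℕ) =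
        x + a * ze ^ (j : ℕ) + b * (Complex.I * ze ^ (j : ℕ)) := by ring
      rw [c2, c3]
      push_cast at h0
      linarith

end Pool.Agent.H50.Tri
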