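import Pool.Agent.H50.Tri.Base

/-!
# Triangles with an angle of 30 or 150 degrees

For a triangle with legs `a`, `b` (real, `b < 0` allowed) along the directions `1` and
`s = exp (i π / 6)`, the set of eight points `0, a, b s, b s', ...` is a balanced configuration.
-/

set_option autoImplicit false

namespace Pool.Agent.H50.Tri

open Finset ComplexConjugate

/-- Coordinates with respect to `1, s, s², s³`. -/
abbrev V := ℤ × ℤ × ℤ × ℤ

/-- Multiplication by `s`, where `s⁴ = s² - 1`. -/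
def mulS (u : V) : V := (-u.2.2.2, u.1, u.2.1 + u.2.2.2, u.2.2.1)

/-- The powers of `s`. -/
def z : ℕ → V
  | 0 => (1, 0, 0, 0)
  | k + 1 => mulS (z k)

section comb

variable (F : V → V → Prop)
  (c1 : ∀ u v k, F u v → F (u + z k) v → F u (v + z (k + 1)) → False)
  (c2 : ∀ u v k, F u v → F (u + z k) v → F u (v + z (k + 11)) → False)
  (e1 : ∀ u v k, ¬ F u (v + z (k + 1)) → ¬ F u (v + z (k + 11)) → F u v ∧ F (u + z k) v)
  (e2 : ∀ u v k, ¬ F (u + z (k + 1)) v → ¬ F (u + z (k + 11)) v → F u v ∧ F u (v + z k))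
include c1 c2 e1 e2

theorem comb1 (a1 : F (0, 0, 0, 0) (0, 0, 0, 0)) (a2 : ¬ F (1, 0, 0, 0) (0, 0, 0, 1)) : False := by
  by_cases g1 : F (1, 0, -1, 0) (0, 0, 0, 1)
  · have h2 : ¬ F (0, 0, 0, 0) (0, 0, 0, 1) := fun H => c2 (0, 0, 0, 0) (0, 0, 0, 1) 10 H g1 a1
    have h3 : F (0, 0, 1, 0) (0, 0, 0, 0) := (e2 (0, 0, 1, 0) (0, 0, 0, 1) 9 a2 h2).2
    have h4 : ¬ F (0, 0, 0, 0) (0, 1, 0, 0) := fun H => c2 (0, 0, 0, 0) (0, 0, 0, 0) 2 a1 h3 H
    have h5 : F (0, 0, 1, 0) (0, 1, 0, 0) := by_contra fun H => a2 ((e2 (1, 0, 0, 0) (0, 1, 0, 0) 5 h4 H).2)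
    have h6 : F (1, 0, 0, 0) (0, 0, 0, 0) := by_contra fun H => h4 ((e1 (1, 0, 0, 0) (0, 1, 0, 0) 6 H a2).2)
    have h7 : ¬ F (-1, 0, 1, 0) (0, 1, 0, 0) := fun H => c1 (0, 0, 1, 0) (0, 1, 0, 0) 6 h5 H h3
    have h8 : F (-1, 0, 1, 0) (0, 0, 0, 0) := by_contra fun H => h2 ((e1 (-1, 0, 1, 0) (0, 0, 0, 1) 10 h7 H).2)
    have h9 : ¬ F (0, 0, 1, 0) (0, 1, 0, -1) := fun H => c1 (0, 0, 1, 0) (0, 0, 0, 0) 10 h3 h6 H
    have h10 : F (-1, 0, 1, 0) (0, 1, 0, -1) := by_contra fun H => h4 ((e2 (0, 0, 0, 0) (0, 1, 0, -1) 3 H h9).2)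
    exact c2 (-1, 0, 1, 0) (0, 0, 0, 0) 0 h8 h3 h10
  · have h11 : F (0, 0, 0, 0) (0, 0, 0, 1) := by_contra fun H => a2 ((e2 (1, 0, 0, 0) (0, 0, 0, 1) 7 g1 H).1)
    have h12 : F (0, 0, 0, 0) (0, 1, 0, 0) := (e2 (0, 0, 0, 0) (0, 0, 0, 1) 11 a2 g1).2
    have h13 : ¬ F (-1, 0, 1, 0) (0, 1, 0, 0) := fun H => c1 (0, 0, 0, 0) (0, 1, 0, 0) 4 h12 H h11
    have h14 : ¬ F (1, 0, 0, 0) (0, 0, 0, 0) := fun H => c1 (0, 0, 0, 0) (0, 0, 0, 0) 0 a1 H h12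
    have h15 : ¬ F (0, 0, 1, 0) (0, 0, 0, 0) := fun H => c1 (0, 0, 0, 0) (0, 0, 0, 0) 2 a1 H h11
    have h16 : F (0, 0, 1, 0) (0, 1, 0, 0) := by_contra fun H => a2 ((e1 (0, 0, 1, 0) (0, 0, 0, 1) 10 H h15).2)
    have h17 : ¬ F (0, 0, 1, 0) (0, 1, 0, -1) := fun H => c1 (0, 0, 1, 0) (0, 1, 0, 0) 8 h16 h12 H
    have h18 : F (0, 0, 0, 0) (0, 1, 0, -1) := by_contra fun H => h14 ((e2 (1, 0, 0, 0) (0, 1, 0, -1) 5 H h17).2)
    have h19 : ¬ F (-1, 0, 1, 0) (0, 1, 0, -1) := fun H => c1 (0, 0, 0, 0) (0, 1, 0, -1) 4 h18 H a1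
    exact h15 ((e1 (-1, 0, 1, 0) (0, 0, 0, 0) 0 h13 h19).2)

theorem comb2 (a1 : ¬ F (0, 0, 0, 0) (0, 0, 0, 0)) (a2 : F (1, 0, 0, 0) (0, 0, 0, 1)) : False := by
  by_cases g20 : F (1, 0, 0, 0) (0, -1, 0, 1)
  · have h21 : ¬ F (0, 0, 0, 0) (0, 0, 0, 1) := fun H => c1 (1, 0, 0, 0) (0, 0, 0, 1) 6 a2 H g20
    have h22 : ¬ F (1, 0, -1, 0) (0, 0, 0, 1) := fun H => c2 (1, 0, 0, 0) (0, 0, 0, 1) 8 a2 H g20
    have h23 : F (1, 0, 0, 0) (0, 0, 0, 0) := by_contra fun H => h22 ((e2 (1, 0, -1, 0) (0, 0, 0, 0) 3 (by exact a1) (by exact H)).2)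
    have h24 : ¬ F (0, 0, 1, 0) (0, 0, 0, 0) := fun H => c1 (1, 0, 0, 0) (0, 0, 0, 0) 4 h23 H g20
    have h25 : F (-1, 0, 1, 0) (0, 0, 0, 0) := by_contra fun H => h24 ((e2 (0, 0, 1, 0) (0, 0, 0, 0) 7 a1 H).1)
    have h26 : F (1, 0, -1, 0) (0, -1, 0, 1) := by_contra fun H => a1 ((e1 (1, 0, -1, 0) (0, 0, 0, 0) 4 H h22).2)
    have h27 : ¬ F (1, 0, 0, 0) (0, -1, 0, 0) := fun H => c1 (1, 0, 0, 0) (0, -1, 0, 1) 8 g20 h26 H
    have h28 : F (1, 0, -1, 0) (0, 0, 0, 0) := by_contra fun H => h27 ((e2 (1, 0, 0, 0) (0, 0, 0, 0) 7 H a1).2)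
    have h29 : ¬ F (0, 0, -1, 0) (0, 0, 0, 0) := fun H => c2 (1, 0, -1, 0) (0, 0, 0, 0) 6 h28 H h26
    have h30 : F (-1, 0, 0, 0) (0, 0, 0, 0) := (e2 (-1, 0, 0, 0) (0, 0, 0, 0) 11 (by exact a1) (by exact h29)).1
    have h31 : ¬ F (-1, 0, 0, 0) (0, 1, 0, 0) := fun H => c2 (-1, 0, 0, 0) (0, 0, 0, 0) 2 h30 h25 H
    exact h31 ((e1 (0, 0, 0, 0) (0, 1, 0, 0) 6 a1 h21).2)
  · have h32 : F (0, 0, 1, 0) (0, 0, 0, 0) := by_contra fun H => g20 ((e2 (1, 0, 0, 0) (0, 0, 0, 0) 5 a1 H).2)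
    have h33 : ¬ F (1, 0, 0, 0) (0, 0, 0, 0) := fun H => c2 (1, 0, 0, 0) (0, 0, 0, 0) 4 H h32 a2
    have h34 : F (1, 0, -1, 0) (0, 0, 0, 1) := (e1 (1, 0, 0, 0) (0, 0, 0, 1) 8 h33 g20).2
    have h35 : F (0, 0, 1, 0) (0, 0, 0, -1) := (e2 (0, 0, 1, 0) (0, 0, 0, 0) 9 h33 a1).2
    have h36 : F (0, 0, 0, 0) (0, 0, 0, 1) := by_contra fun H => g20 ((e1 (0, 0, 0, 0) (0, -1, 0, 1) 0 (by exact H) (by exact a1)).2)
    have h37 : ¬ F (0, 0, 0, 0) (0, 1, 0, 0) := fun H => c2 (0, 0, 0, 0) (0, 0, 0, 1) 0 h36 a2 H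
    have h38 : F (0, 0, 0, 0) (0, 1, 0, -1) := (e1 (0, 0, 0, 0) (0, 1, 0, -1) 4 (by exact a1) (by exact h37)).1
    have h39 : F (1, 0, -1, 0) (0, -1, 0, 1) := by_contra fun H => a1 ((e2 (0, 0, 0, 0) (0, -1, 0, 1) 11 g20 H).2)
    have h40 : ¬ F (0, 0, -1, 0) (0, 0, 0, 1) := fun H => c1 (1, 0, -1, 0) (0, 0, 0, 1) 6 h34 H h39
    have h41 : F (0, 0, 0, 0) (0, -1, 0, 1) := by_contra fun H => h40 ((e1 (0, 0, 0, 0) (0, 0, 0, 1) 8 a1 H).2)
    have h42 : ¬ F (0, 0, 0, 0) (0, -1, 0, 0) := fun H => c2 (0, 0, 0, 0) (0, -1, 0, 1) 10 h41 h39 H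
    have h43 : F (0, 0, 0, 0) (0, 0, 0, -1) := by_contra fun H => h42 ((e1 (0, 0, 0, 0) (0, -1, 0, 0) 0 (by exact a1) (by exact H)).1)
    exact c2 (0, 0, 0, 0) (0, 0, 0, -1) 2 h43 h35 h38

end comb

/-- Evaluation. -/
noncomputable def ev (s : ℂ) (u : V) : ℂ := u.1 + u.2.1 * s + u.2.2.1 * s ^ 2 + u.2.2.2 * s ^ 3

theorem ev_add (s : ℂ) (u v : V) : ev s (u + v) = ev s u + ev s v := by
  simp only [ev, Prod.fst_add, Prod.snd_add]
  push_cast
  ring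

theorem ev_mulS (s : ℂ) (hs : s ^ 4 = s ^ 2 - 1) (u : V) : ev s (mulS u) = s * ev s u := by
  simp only [ev, mulS]
  push_cast
  linear_combination (-(u.2.2.2 : ℂ)) * hs

theorem ev_z (s : ℂ) (hs : s ^ 4 = s ^ 2 - 1) (k : ℕ) : ev s (z k) = s ^ k := by
  induction k with
  | zero => simp [ev, z]
  | succ k ih => rw [z, ev_mulS s hs, ih, pow_succ']

/-- `exp (i π / 6)` -/
noncomputable def s30 : ℂ := ⟨Real.sqrt 3 / 2, 1 / 2⟩

theorem sqrt3_sq : Real.sqrt 3 * Real.sqrt 3 = 3 := Real.mul_self_sqrt (by norm_num)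

theorem s30_sq : s30 ^ 2 = ⟨1 / 2, Real.sqrt 3 / 2⟩ := by
  rw [pow_two, s30]
  apply Complex.ext
  · simp only [Complex.mul_re]
    linarith [sqrt3_sq]
  · simp only [Complex.mul_im]
    ring

theorem s30_cube : s30 ^ 3 = Complex.I := by
  rw [pow_succ, s30_sq, s30]
  apply Complex.ext
  · simp only [Complex.mul_re, Complex.I_re]
    ring
  · simp only [Complex.mul_im, Complex.I_im]
    linarith [sqrt3_sq]

theorem s30_four : s30 ^ 4 = s30 ^ 2 - 1 := by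
  rw [pow_succ, s30_cube, s30_sq, s30]
  apply Complex.ext
  · simp
    norm_num
  · simp

theorem s30_conj : conj s30 = s30 - s30 ^ 3 := by
  rw [s30_cube, s30]
  apply Complex.ext
  · simp
  · simp
    norm_num

theorem s30_norm : ‖s30‖ = 1 := by
  rw [s30, Complex.norm_def, Complex.normSq_mk]
  have : Real.sqrt 3 / 2 * (Real.sqrt 3 / 2) + 1 / 2 * (1 / 2) = 1 := by linarith [sqrt3_sq]
  rw [this, Real.sqrt_one]

theorem s30_pow11 : s30 ^ 11 = s30 - s30 ^ 3 := by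
  have h := s30_four
  linear_combination (s30 ^ 7 + s30 ^ 5 - s30) * h


/-- First defect. -/
noncomputable def I1 (a b : ℝ) (A : Set ℂ) (x ρ : ℂ) : ℤ :=
  (1 - ind A (x + b * (s30 * ρ))) * (1 - ind A (x + b * (conj s30 * ρ))) -
    ind A x * ind A (x + a * ρ)

theorem I1_nonneg {a b : ℝ} {A : Set ℂ} (h : Free a b s30 A) (x ρ : ℂ) (hρ : ‖ρ‖ = 1) :
    0 ≤ I1 a b A x ρ := by
  unfold I1
  obtain ⟨h1, h2⟩ := h x ρ hρ
  by_cases hx : x ∈ A
  · by_cases hy : x + a * ρ ∈ A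
    · rw [ind_of_not_mem (h1 hx hy), ind_of_not_mem (h2 hx hy), ind_of_mem hx, ind_of_mem hy]
      norm_num
    · rw [ind_of_not_mem hy]
      rcases ind_cases A (x + b * (s30 * ρ)) with e | e <;>
      rcases ind_cases A (x + b * (conj s30 * ρ)) with e' | e' <;> rw [e, e'] <;> simp
  · rw [ind_of_not_mem hx]
    rcases ind_cases A (x + b * (s30 * ρ)) with e | e <;>
    rcases ind_cases A (x + b * (conj s30 * ρ)) with e' | e' <;> rw [e, e'] <;> simp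

theorem I1_zero {a b : ℝ} {A : Set ℂ} {x ρ : ℂ} (h : I1 a b A x ρ = 0)
    (h1 : x + b * (s30 * ρ) ∉ A) (h2 : x + b * (conj s30 * ρ) ∉ A) : x ∈ A ∧ x + a * ρ ∈ A := by
  unfold I1 at h
  rw [ind_of_not_mem h1, ind_of_not_mem h2] at h
  constructor
  · by_contra h'
    rw [ind_of_not_mem h'] at h
    norm_num at h
  · by_contra h'
    rw [ind_of_not_mem h'] at h
    norm_num at h

theorem conj_mul_s30 : conj s30 * s30 = 1 := by
  rw [s30_conj]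
  linear_combination (-1 : ℂ) * s30_four

theorem Free.symm {a b : ℝ} {A : Set ℂ} (h : Free a b s30 A) : Free b a s30 A := by
  intro x ρ hρ
  constructor
  · intro h1 h2 h3
    refine (h x (s30 * ρ) (by rw [norm_mul, s30_norm, hρ, one_mul])).2 h1 h3 ?_
    rwa [← mul_assoc (conj s30), conj_mul_s30, one_mul]
  · intro h1 h2 h3
    refine (h x (conj s30 * ρ) (by rw [norm_mul, RCLike.norm_conj, s30_norm, hρ, one_mul])).1
      h1 h3 ?_
    rwa [← mul_assoc s30, mul_comm s30, conj_mul_s30, one_mul]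

/-- The configuration of eight points. -/
noncomputable def X8 (a b : ℝ) : Fin (2 * 4) → ℂ :=
  ![0, a, b * s30, b * (s30 - s30 ^ 3), b * s30 + a - a * s30 ^ 2, b * s30 - a * s30 ^ 2,
    a - a * s30 ^ 2, a - a * s30 ^ 2 + b * s30 ^ 3]

theorem sum_X8 (a b : ℝ) (A : Set ℂ) (x ρ : ℂ) :
    ∑ i, ind A (x + ρ * X8 a b i) = 4 - (I1 a b A x ρ + I1 b a A (x + b * (s30 * ρ)) (-(s30 ^ 3 * ρ))
      + I1 a b A (x + (b * s30 + a - a * s30 ^ 2) * ρ) (-ρ)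
      + I1 b a A (x + (a - a * s30 ^ 2) * ρ) (s30 ^ 3 * ρ)) := by
  have h4 := s30_four
  have hE : ∑ i, ind A (x + ρ * X8 a b i) =
      ind A (x + ρ * 0) + ind A (x + ρ * a) + ind A (x + ρ * (b * s30)) +
      ind A (x + ρ * (b * (s30 - s30 ^ 3))) + ind A (x + ρ * (b * s30 + a - a * s30 ^ 2)) +
      ind A (x + ρ * (b * s30 - a * s30 ^ 2)) + ind A (x + ρ * (a - a * s30 ^ 2)) +
      ind A (x + ρ * (a - a * s30 ^ 2 + b * s30 ^ 3)) := by
    exact Fin.sum_univ_eight _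
  rw [hE]
  simp only [I1, s30_conj]
  -- canonical names
  have c0 : x + ρ * 0 = x := by ring
  have c1 : x + ρ * a = x + a * ρ := by ring
  have c2 : x + ρ * (b * s30) = x + b * (s30 * ρ) := by ring
  have c3 : x + ρ * (b * (s30 - s30 ^ 3)) = x + b * ((s30 - s30 ^ 3) * ρ) := by ring
  have c4 : x + ρ * (b * s30 + a - a * s30 ^ 2) = x + (b * s30 + a - a * s30 ^ 2) * ρ := by ring
  have c5 : x + ρ * (a - a * s30 ^ 2) = x + (a - a * s30 ^ 2) * ρ := by ring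
  rw [c0, c1, c2, c3, c4, c5]
  have d1 : x + b * (s30 * ρ) + a * (s30 * -(s30 ^ 3 * ρ)) =
      x + (b * s30 + a - a * s30 ^ 2) * ρ := by
    linear_combination (-(a : ℂ) * ρ) * h4
  have d2 : x + b * (s30 * ρ) + a * ((s30 - s30 ^ 3) * -(s30 ^ 3 * ρ)) =
      x + ρ * (b * s30 - a * s30 ^ 2) := by
    linear_combination ((a : ℂ) * ρ * s30 ^ 2) * h4
  have d3 : x + b * (s30 * ρ) + b * -(s30 ^ 3 * ρ) = x + b * ((s30 - s30 ^ 3) * ρ) := by ring
  have d4 : x + (b * s30 + a - a * s30 ^ 2) * ρ + b * (s30 * -ρ) =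
      x + (a - a * s30 ^ 2) * ρ := by ring
  have d5 : x + (b * s30 + a - a * s30 ^ 2) * ρ + b * ((s30 - s30 ^ 3) * -ρ) =
      x + ρ * (a - a * s30 ^ 2 + b * s30 ^ 3) := by ring
  have d6 : x + (b * s30 + a - a * s30 ^ 2) * ρ + a * -ρ =
      x + ρ * (b * s30 - a * s30 ^ 2) := by ring
  have d7 : x + (a - a * s30 ^ 2) * ρ + a * (s30 * (s30 ^ 3 * ρ)) = x := by
    linear_combination ((a : ℂ) * ρ) * h4
  have d8 : x + (a - a * s30 ^ 2) * ρ + a * ((s30 - s30 ^ 3) * (s30 ^ 3 * ρ)) = x + a * ρ := by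
    linear_combination (-(a : ℂ) * ρ * s30 ^ 2) * h4
  have d9 : x + (a - a * s30 ^ 2) * ρ + b * (s30 ^ 3 * ρ) =
      x + ρ * (a - a * s30 ^ 2 + b * s30 ^ 3) := by ring
  rw [d1, d2, d3, d4, d5, d6, d7, d8, d9]
  ring

theorem good_thirty (a b : ℝ) (ha : a ≠ 0) : Good (Free a b s30) := by
  refine ⟨4, by norm_num, X8 a b, ?_, ?_⟩
  · intro A hA x ρ hρ
    rw [sum_X8]
    have n1 : ‖-(s30 ^ 3 * ρ)‖ = 1 := by
      rw [norm_neg, norm_mul, norm_pow, s30_norm, hρ]; norm_num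
    have n2 : ‖s30 ^ 3 * ρ‖ = 1 := by
      rw [norm_mul, norm_pow, s30_norm, hρ]; norm_num
    have n3 : ‖-ρ‖ = 1 := by rw [norm_neg, hρ]
    have := I1_nonneg hA x ρ hρ
    have := I1_nonneg hA.symm (x + b * (s30 * ρ)) _ n1
    have := I1_nonneg hA (x + (b * s30 + a - a * s30 ^ 2) * ρ) _ n3
    have := I1_nonneg hA.symm (x + (a - a * s30 ^ 2) * ρ) _ n2
    push_cast
    linarith
  · intro A hA hex
    have key : ∀ x ρ : ℂ, ‖ρ‖ = 1 → I1 a b A x ρ = 0 ∧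
        I1 b a A (x + b * (s30 * ρ)) (-(s30 ^ 3 * ρ)) = 0 := by
      intro x ρ hρ
      have h0 := hex x ρ hρ
      rw [sum_X8] at h0
      have n1 : ‖-(s30 ^ 3 * ρ)‖ = 1 := by
        rw [norm_neg, norm_mul, norm_pow, s30_norm, hρ]; norm_num
      have n2 : ‖s30 ^ 3 * ρ‖ = 1 := by
        rw [norm_mul, norm_pow, s30_norm, hρ]; norm_num
      have n3 : ‖-ρ‖ = 1 := by rw [norm_neg, hρ]
      have := I1_nonneg hA x ρ hρ
      have := I1_nonneg hA.symm (x + b * (s30 * ρ)) _ n1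
      have := I1_nonneg hA (x + (b * s30 + a - a * s30 ^ 2) * ρ) _ n3
      have := I1_nonneg hA.symm (x + (a - a * s30 ^ 2) * ρ) _ n2
      push_cast at h0
      constructor <;> linarith
    have k1 : ∀ x ρ : ℂ, ‖ρ‖ = 1 → I1 a b A x ρ = 0 := fun x ρ hρ => (key x ρ hρ).1
    have k2 : ∀ x ρ : ℂ, ‖ρ‖ = 1 → I1 b a A x ρ = 0 := by
      intro x ρ hρ
      have := (key (x - b * (s30 * (s30 ^ 3 * ρ))) (s30 ^ 3 * ρ) (by
        rw [norm_mul, norm_pow, s30_norm, hρ]; norm_num)).2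
      have e1 : x - b * (s30 * (s30 ^ 3 * ρ)) + b * (s30 * (s30 ^ 3 * ρ)) = x := by ring
      have e2 : -(s30 ^ 3 * (s30 ^ 3 * ρ)) = ρ := by
        linear_combination (-(ρ * (s30 ^ 2 + 1))) * s30_four
      rwa [e1, e2] at this
    have hs4 := s30_four
    have inv : ∀ x ρ : ℂ, ‖ρ‖ = 1 →
        (x + (a + b * Complex.I) * ρ ∈ A) = (x ∈ A) := by
      intro x ρ hρ
      let F : V → V → Prop := fun u v => x + (a * ev s30 u + b * ev s30 v) * ρ ∈ A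
      have hk : ∀ k : ℕ, ‖s30 ^ k * ρ‖ = 1 := by
        intro k
        rw [norm_mul, norm_pow, s30_norm, hρ]; norm_num
      have pa : ∀ (u v : V) (k : ℕ), x + (a * ev s30 (u + z k) + b * ev s30 v) * ρ =
          x + (a * ev s30 u + b * ev s30 v) * ρ + a * (s30 ^ k * ρ) := by
        intro u v k
        rw [ev_add, ev_z _ hs4]
        ring
      have pb : ∀ (u v : V) (k : ℕ), x + (a * ev s30 u + b * ev s30 (v + z k)) * ρ =
          x + (a * ev s30 u + b * ev s30 v) * ρ + b * (s30 ^ k * ρ) := by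
        intro u v k
        rw [ev_add, ev_z _ hs4]
        ring
      have q1 : ∀ k : ℕ, s30 ^ (k + 1) * ρ = s30 * (s30 ^ k * ρ) := by
        intro k; ring
      have q2 : ∀ k : ℕ, s30 ^ (k + 11) * ρ = conj s30 * (s30 ^ k * ρ) := by
        intro k
        rw [pow_add, s30_pow11, s30_conj]
        ring
      have c1 : ∀ u v k, F u v → F (u + z k) v → F u (v + z (k + 1)) → False := by
        intro u v k h1 h2 h3
        simp only [F, pa, pb, q1] at h1 h2 h3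
        exact (hA _ _ (hk k)).1 h1 h2 h3
      have c2 : ∀ u v k, F u v → F (u + z k) v → F u (v + z (k + 11)) → False := by
        intro u v k h1 h2 h3
        simp only [F, pa, pb, q2] at h1 h2 h3
        exact (hA _ _ (hk k)).2 h1 h2 h3
      have e1 : ∀ u v k, ¬ F u (v + z (k + 1)) → ¬ F u (v + z (k + 11)) →
          F u v ∧ F (u + z k) v := by
        intro u v k h1 h2
        simp only [F, pb, q2] at h2
        simp only [F, pa, pb, q1] at h1 ⊢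
        exact I1_zero (k1 _ _ (hk k)) h1 h2
      have e2 : ∀ u v k, ¬ F (u + z (k + 1)) v → ¬ F (u + z (k + 11)) v →
          F u v ∧ F u (v + z k) := by
        intro u v k h1 h2
        simp only [F, pa, q2] at h2
        simp only [F, pa, pb, q1] at h1 ⊢
        exact I1_zero (k2 _ _ (hk k)) h1 h2
      have f0 : F (0, 0, 0, 0) (0, 0, 0, 0) = (x ∈ A) := by
        simp [F, ev]
      have f1 : F (1, 0, 0, 0) (0, 0, 0, 1) = (x + (a + b * Complex.I) * ρ ∈ A) := by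
        simp [F, ev, s30_cube]
      rw [← f0, ← f1]
      refine propext ⟨fun h => ?_, fun h => ?_⟩
      · by_contra h'
        exact comb2 F c1 c2 e1 e2 h' h
      · by_contra h'
        exact comb1 F c1 c2 e1 e2 h h'
    have hw : (a + b * Complex.I : ℂ) ≠ 0 := by
      intro h'
      have := congrArg Complex.re h'
      simp at this
      exact ha this
    have hc := const_of_inv (fun z => z ∈ A) _ hw inv
    have h0 := hex 0 1 norm_one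
    have hc' : ∀ i, ind A (0 + 1 * X8 a b i) = ind A 0 := by
      intro i
      have := hc (0 + 1 * X8 a b i) 0
      by_cases h : (0 : ℂ) ∈ A
      · rw [ind_of_mem h, ind_of_mem (by rw [this]; exact h)]
      · rw [ind_of_not_mem h, ind_of_not_mem (by rw [this]; exact h)]
    rw [Finset.sum_congr rfl (fun i _ => hc' i), Finset.sum_const, Finset.card_univ,
      Fintype.card_fin, nsmul_eq_mul] at h0
    push_cast at h0
    omega

end Pool.Agent.H50.Tri
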